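import Mathlib
import Pool.Agent.KS6_17.WI.Main

set_option autoImplicit false

/-!
# One measure for all exponents

There are ONE symmetric measure `μ` on the closed unit disc and ONE analytic function `F` in the
open unit disc such that for all real `s > 0` and `q > 0`

* `exp (s F)` belongs to `E^q(μ)` if and only if `s q ≤ 1`;
* `exp (s F)` is weakly invertible in `E^q(μ)` if and only if `s q < 1`.

So for this single `μ` and for all exponents `0 < q < p < ∞` (also for `p < 1`, where `E^p(μ)` is
not a normed space) the function `f = exp (F / p)` belongs to `E^p(μ)`, it is weakly invertible in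
`E^q(μ)` and it is not weakly invertible in `E^p(μ)`. This disproves Q1 for every pair of
exponents, with the same measure.
-/

namespace Pool.Agent.Results.MP_d61770_an.OneMeasure

open MeasureTheory Pool.Agent.Helper873.Ep

/-- **One measure for all exponents**, with the sharp thresholds. -/
theorem result : ∃ (μ : Measure ℂ) (F : ℂ → ℂ), IsSymmetric μ ∧
    DifferentiableOn ℂ F (Metric.ball 0 1) ∧
    (∀ s q : ℝ, 0 < s → 0 < q →
      (MemEp μ q (fun z => Complex.exp (s * F z)) ↔ s * q ≤ 1) ∧
      (WeaklyInvertible μ q (fun z => Complex.exp (s * F z)) ↔ s * q < 1)) ∧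
    ∀ q p : ℝ, 0 < q → q < p → ∃ f : ℂ → ℂ,
      MemEp μ p f ∧ WeaklyInvertible μ q f ∧ ¬ WeaklyInvertible μ p f := by
  obtain ⟨μ, F, hμ, hF, h⟩ := Pool.Agent.KS6_17.WI.thresholds
  refine ⟨μ, F, hμ, hF, h, fun q p hq hqp => ?_⟩
  have hp : 0 < p := hq.trans hqp
  have hs : 0 < 1 / p := by positivity
  refine ⟨fun z => Complex.exp (((1 / p : ℝ) : ℂ) * F z), ?_, ?_, ?_⟩
  · exact ((h (1 / p) p hs hp).1).2 (by rw [one_div, inv_mul_cancel₀ hp.ne'])
  · refine ((h (1 / p) q hs hq).2).2 ?_
    rw [one_div, inv_mul_lt_iff₀ hp]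
    linarith
  · intro hw
    have := ((h (1 / p) p hs hp).2).1 hw
    rw [one_div, inv_mul_cancel₀ hp.ne'] at this
    exact lt_irrefl _ this

end Pool.Agent.Results.MP_d61770_an.OneMeasure
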